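import Pool.Agent.W809.DN.Stms

/-! Project DN (helper809), task DN-EXI (helper12): existence of an infinite set from estimates
in mean, by a limit along an ultrafilter. -/

set_option autoImplicit false

open Finset Filter Topology

namespace Pool.Agent.W12.DN.Exi

open Pool.Agent.W809.DN

lemma geo_half (n : ℕ) : ∑ l ∈ range n, (1 / 2 : ℝ) ^ l ≤ 2 := by
  have h : ∀ n : ℕ, ∑ l ∈ range n, (1 / 2 : ℝ) ^ l = 2 - 2 * (1 / 2) ^ n := by
    intro n
    induction n with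
    | zero => simp
    | succ n ih => rw [Finset.sum_range_succ, ih, pow_succ]; ring
  rw [h]
  have : (0 : ℝ) ≤ (1 / 2) ^ n := by positivity
  linarith

/-- small tails -/
lemma tail_small {c : ℕ → ℝ} (hc : ∀ j, 0 ≤ c j) (hs : Summable c) {ε : ℝ} (hε : 0 < ε) :
    ∃ J : ℕ, ∀ n : ℕ, ∑ j ∈ (range n).filter (fun j => J ≤ j), c j ≤ ε := by
  have h1 := hs.hasSum.tendsto_sum_nat
  rw [Metric.tendsto_atTop] at h1
  obtain ⟨J, hJ⟩ := h1 ε hε
  refine ⟨J, fun n => ?_⟩
  have h2 := hJ J le_rfl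
  rw [Real.dist_eq, abs_lt] at h2
  have h3 : ∑ j ∈ (range n).filter (fun j => J ≤ j), c j + ∑ j ∈ range J, c j ≤ ∑' j, c j := by
    rw [← Finset.sum_union]
    · exact hs.sum_le_tsum _ fun j _ => hc j
    · rw [Finset.disjoint_left]
      intro j hj hj'
      rw [Finset.mem_filter] at hj
      rw [Finset.mem_range] at hj'
      omega
  linarith [h2.1]

lemma exists_lt {δ : ℕ → ℝ} (h : ∀ s, 0 ≤ δ s ∧ δ s ≤ 1) (S : Finset ℕ) {f : Finset ℕ → ℝ} {b : ℝ}
    (hf : EE δ S f < b) : ∃ A : Finset ℕ, f A < b := by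
  by_contra hcon
  push Not at hcon
  have h1 := EE_mono h S (f := fun _ => b) (g := f) (fun A _ => hcon A)
  rw [EE_const] at h1
  linarith

theorem exi : S_EXI := by
  classical
  intro δ hδ g c hg happ hE hsum
  choose M0 hM0 using hE
  -- the bounds are nonnegative
  have hc : ∀ h j, 0 ≤ c h j := by
    intro h j
    have h1 := hM0 h j (M0 h j) le_rfl
    have h2 := EE_mono hδ (range (M0 h j)) (f := fun _ => (0 : ℝ))
      (g := fun A => g h j (A : Set ℕ)) (fun A _ => hg h j _)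
    rw [EE_const] at h2
    linarith
  -- thresholds
  have hJ : ∀ h l : ℕ, ∃ J : ℕ, ∀ n : ℕ,
      ∑ j ∈ (range n).filter (fun j => J ≤ j), c h j ≤ (1 / 4 : ℝ) ^ (h + l + 2) :=
    fun h l => tail_small (hc h) (hsum h) (by positivity)
  choose J hJ using hJ
  -- finite stages
  have hstage : ∀ n : ℕ, ∃ A : Set ℕ, ∀ h l j : ℕ, h < n → l < n → j < n → J h l ≤ j →
      g h j A ≤ (1 / 2 : ℝ) ^ l := by
    intro n
    obtain ⟨T, hT⟩ : ∃ T : Finset (ℕ × ℕ × ℕ), T = (range n ×ˢ range n ×ˢ range n).filter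
      (fun t => J t.1 t.2.1 ≤ t.2.2) := ⟨_, rfl⟩
    obtain ⟨M, hM⟩ : ∃ M : ℕ, ∀ t ∈ T, M0 t.1 t.2.2 ≤ M :=
      ⟨T.sup (fun t => M0 t.1 t.2.2), fun t ht =>
        Finset.le_sup (f := fun t : ℕ × ℕ × ℕ => M0 t.1 t.2.2) ht⟩
    have hlt : EE δ (range M) (fun A => ∑ t ∈ T, (2 : ℝ) ^ t.2.1 • g t.1 t.2.2 (A : Set ℕ)) <
        1 := by
      rw [EE_sum]
      calc ∑ t ∈ T, EE δ (range M) (fun A => (2 : ℝ) ^ t.2.1 • g t.1 t.2.2 (A : Set ℕ))
          ≤ ∑ t ∈ T, (2 : ℝ) ^ t.2.1 * c t.1 t.2.2 := by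
            refine Finset.sum_le_sum fun t ht => ?_
            rw [EE_smul, smul_eq_mul]
            exact mul_le_mul_of_nonneg_left (hM0 _ _ M (hM t ht)) (by positivity)
        _ = ∑ h ∈ range n, ∑ l ∈ range n, (2 : ℝ) ^ l *
              ∑ j ∈ (range n).filter (fun j => J h l ≤ j), c h j := by
            rw [hT, Finset.sum_filter, Finset.sum_product]
            refine Finset.sum_congr rfl fun h _ => ?_
            rw [Finset.sum_product]
            refine Finset.sum_congr rfl fun l _ => ?_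
            rw [Finset.sum_filter, Finset.mul_sum]
            refine Finset.sum_congr rfl fun j _ => ?_
            split_ifs <;> simp
        _ ≤ ∑ h ∈ range n, ∑ l ∈ range n, (1 / 16 : ℝ) * ((1 / 2) ^ h * (1 / 2) ^ l) := by
            refine Finset.sum_le_sum fun h _ => Finset.sum_le_sum fun l _ => ?_
            calc (2 : ℝ) ^ l * ∑ j ∈ (range n).filter (fun j => J h l ≤ j), c h j
                ≤ (2 : ℝ) ^ l * (1 / 4 : ℝ) ^ (h + l + 2) :=
                  mul_le_mul_of_nonneg_left (hJ h l n) (by positivity)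
              _ = (1 / 16 : ℝ) * ((1 / 4) ^ h * ((2 : ℝ) ^ l * (1 / 4) ^ l)) := by
                  rw [pow_add, pow_add]; ring
              _ = (1 / 16 : ℝ) * ((1 / 4) ^ h * (1 / 2) ^ l) := by
                  rw [← mul_pow]; norm_num
              _ ≤ (1 / 16 : ℝ) * ((1 / 2) ^ h * (1 / 2) ^ l) := by
                  gcongr
                  norm_num
        _ = (1 / 16 : ℝ) * ((∑ h ∈ range n, (1 / 2 : ℝ) ^ h) * ∑ l ∈ range n, (1 / 2 : ℝ) ^ l) := by
            rw [Finset.sum_mul_sum, Finset.mul_sum]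
            refine Finset.sum_congr rfl fun h _ => ?_
            rw [Finset.mul_sum]
        _ ≤ (1 / 16 : ℝ) * (2 * 2) := by
            have h1 := geo_half n
            have h0 : (0 : ℝ) ≤ ∑ l ∈ range n, (1 / 2 : ℝ) ^ l :=
              Finset.sum_nonneg fun _ _ => by positivity
            gcongr
        _ < 1 := by norm_num
    obtain ⟨A, hA⟩ := exists_lt hδ (range M) hlt
    refine ⟨(A : Set ℕ), fun h l j hh hl hj hJj => ?_⟩
    have hmem : (h, l, j) ∈ T := by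
      rw [hT, Finset.mem_filter, Finset.mem_product, Finset.mem_product]
      exact ⟨⟨Finset.mem_range.2 hh, Finset.mem_range.2 hl, Finset.mem_range.2 hj⟩, hJj⟩
    have h1 : (2 : ℝ) ^ l * g h j (A : Set ℕ) ≤
        ∑ t ∈ T, (2 : ℝ) ^ t.2.1 • g t.1 t.2.2 (A : Set ℕ) := by
      refine Finset.single_le_sum (f := fun t : ℕ × ℕ × ℕ => (2 : ℝ) ^ t.2.1 •
        g t.1 t.2.2 (A : Set ℕ)) (fun t _ => ?_) hmem
      exact mul_nonneg (by positivity) (hg _ _ _)
    have h2 : (2 : ℝ) ^ l * g h j (A : Set ℕ) ≤ 1 := (h1.trans_lt hA).le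
    have h3 : (1 / 2 : ℝ) ^ l * ((2 : ℝ) ^ l * g h j (A : Set ℕ)) ≤ (1 / 2 : ℝ) ^ l * 1 :=
      mul_le_mul_of_nonneg_left h2 (by positivity)
    have h4 : (1 / 2 : ℝ) ^ l * ((2 : ℝ) ^ l * g h j (A : Set ℕ)) = g h j (A : Set ℕ) := by
      rw [← mul_assoc, ← mul_pow]
      norm_num
    linarith
  choose As hAs using hstage
  -- the limit
  obtain ⟨A, hA⟩ : ∃ A : Set ℕ, A = {s | ∀ᶠ n in (hyperfilter ℕ : Filter ℕ), s ∈ As n} := ⟨_, rfl⟩
  have hpt : ∀ s : ℕ, ∀ᶠ n in (hyperfilter ℕ : Filter ℕ), (s ∈ As n ↔ s ∈ A) := by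
    intro s
    by_cases hs : ∀ᶠ n in (hyperfilter ℕ : Filter ℕ), s ∈ As n
    · have hsA : s ∈ A := by rw [hA]; exact hs
      filter_upwards [hs] with n hn
      exact ⟨fun _ => hsA, fun _ => hn⟩
    · have hsA : s ∉ A := by rw [hA]; exact hs
      filter_upwards [(Ultrafilter.eventually_not).2 hs] with n hn
      exact ⟨fun h => absurd h hn, fun h => absurd h hsA⟩
  have hcut : ∀ M : ℕ, ∀ᶠ n in (hyperfilter ℕ : Filter ℕ), As n ∩ Set.Iio M = A ∩ Set.Iio M := by
    intro M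
    have h1 : ∀ᶠ n in (hyperfilter ℕ : Filter ℕ), ∀ s ∈ range M, (s ∈ As n ↔ s ∈ A) :=
      (Filter.eventually_all_finset _).2 fun s _ => hpt s
    filter_upwards [h1] with n hn
    ext s
    constructor
    · rintro ⟨h2, h3⟩
      exact ⟨(hn s (Finset.mem_range.2 h3)).1 h2, h3⟩
    · rintro ⟨h2, h3⟩
      exact ⟨(hn s (Finset.mem_range.2 h3)).2 h2, h3⟩
  have hlim : ∀ h l j : ℕ, J h l ≤ j → g h j A ≤ (1 / 2 : ℝ) ^ l := by
    intro h l j hJj
    refine le_of_forall_pos_le_add fun ε hε => ?_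
    obtain ⟨M, hM⟩ := happ h j (ε / 2) (by positivity)
    have hbig : ∀ᶠ n in (hyperfilter ℕ : Filter ℕ), h < n ∧ l < n ∧ j < n := by
      have h0 : ∀ᶠ n in (atTop : Filter ℕ), h < n ∧ l < n ∧ j < n := by
        filter_upwards [eventually_gt_atTop h, eventually_gt_atTop l, eventually_gt_atTop j]
          with n h1 h2 h3
        exact ⟨h1, h2, h3⟩
      rw [← Nat.cofinite_eq_atTop] at h0
      exact h0.filter_mono (Filter.hyperfilter_le_cofinite)
    obtain ⟨n, hn1, hn2, hn3, hn4⟩ := ((hcut M).and hbig).exists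
    have h1 := hM M le_rfl A
    have h2 := hM M le_rfl (As n)
    rw [hn1] at h2
    have h3 := hAs n h l j hn2 hn3 hn4 hJj
    rw [abs_le] at h1 h2
    linarith [h1.1, h1.2, h2.1, h2.2]
  refine ⟨A, fun h => ?_⟩
  rw [Metric.tendsto_atTop]
  intro ε hε
  obtain ⟨l, hl⟩ := exists_pow_lt_of_lt_one hε (by norm_num : (1 / 2 : ℝ) < 1)
  refine ⟨J h l, fun j hj => ?_⟩
  rw [Real.dist_eq, sub_zero, abs_of_nonneg (hg _ _ _)]
  exact (hlim h l j hj).trans_lt hl

end Pool.Agent.W12.DN.Exi
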