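import Pool.Agent.W809.DN.Stms

/-! Project DN (helper809), task DN-KEY (helper12): choice of the parameters in the window
estimate. -/

set_option autoImplicit false

open Finset Filter Topology

namespace Pool.Agent.W12.DN.Key

open Pool.Agent.W809.DN

lemma d0_adm : Adm d0 := by
  intro s
  unfold d0
  refine ⟨by positivity, ?_⟩
  rw [div_le_div_iff₀ (by positivity) (by norm_num)]
  have : (0 : ℝ) ≤ (Nat.sqrt (Nat.sqrt s) : ℝ) := Nat.cast_nonneg _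
  linarith

lemma d0_anti : Antitone d0 := by
  intro s t hst
  unfold d0
  have h1 : Nat.sqrt (Nat.sqrt s) ≤ Nat.sqrt (Nat.sqrt t) := Nat.sqrt_le_sqrt (Nat.sqrt_le_sqrt hst)
  have h2 : (Nat.sqrt (Nat.sqrt s) : ℝ) ≤ (Nat.sqrt (Nat.sqrt t) : ℝ) := by exact_mod_cast h1
  exact one_div_le_one_div_of_le (by positivity) (by linarith)

lemma pow_exp_bdd (k : ℕ) {c : ℝ} (hc : 0 < c) : ∃ K : ℝ, 0 < K ∧ ∀ q : ℕ,
    ((q : ℝ) + 1) ^ k * Real.exp (-(c * q)) ≤ K := by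
  refine ⟨(k.factorial : ℝ) / c ^ k * Real.exp c, by positivity, fun q => ?_⟩
  have h := Real.pow_div_factorial_le_exp (c * ((q : ℝ) + 1)) (by positivity) k
  rw [mul_pow, div_le_iff₀ (by positivity)] at h
  have h1 : ((q : ℝ) + 1) ^ k ≤ Real.exp (c * ((q : ℝ) + 1)) * (k.factorial : ℝ) / c ^ k := by
    rw [le_div_iff₀ (by positivity)]
    linarith
  calc ((q : ℝ) + 1) ^ k * Real.exp (-(c * q))
      ≤ Real.exp (c * ((q : ℝ) + 1)) * (k.factorial : ℝ) / c ^ k * Real.exp (-(c * q)) := by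
        gcongr
    _ = (k.factorial : ℝ) / c ^ k * (Real.exp (c * ((q : ℝ) + 1)) * Real.exp (-(c * q))) := by ring
    _ = (k.factorial : ℝ) / c ^ k * Real.exp c := by
        rw [← Real.exp_add]
        congr 2
        ring

lemma norm_le_one {δ : ℕ → ℝ} (h : ∀ s, 0 ≤ δ s ∧ δ s ≤ 1) (S : Finset ℕ) (x : Finset ℕ → ℝ) :
    ‖EE δ S (fun A => ee (x A))‖ ≤ 1 := by
  refine (norm_EE_le h S _).trans ?_
  simp only [norm_ee]
  rw [EE_const]

/-- the third term -/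
lemma third (r n : ℕ) (hr : 2 ≤ r) :
    ((n : ℝ) + 1) * ((r : ℝ) ^ n * ((r : ℝ)⁻¹) ^ (2 * (n - n / 4))) ≤ 2 := by
  have hr0 : (2 : ℝ) ≤ r := by exact_mod_cast hr
  have hrp : (0 : ℝ) < r := by linarith
  obtain ⟨k, hk⟩ : ∃ k, 2 * (n - n / 4) = n + k := ⟨2 * (n - n / 4) - n, by omega⟩
  have hk2 : n ≤ 2 * k := by omega
  have h1 : (r : ℝ) ^ n * ((r : ℝ)⁻¹) ^ (2 * (n - n / 4)) = ((r : ℝ)⁻¹) ^ k := by
    rw [hk, pow_add, ← mul_assoc, ← mul_pow, mul_inv_cancel₀ hrp.ne', one_pow, one_mul]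
  rw [h1]
  have h2 : ((r : ℝ)⁻¹) ^ k ≤ (2⁻¹ : ℝ) ^ k := by
    gcongr
  have h3 : (k : ℝ) + 1 ≤ 2 ^ k := by
    have : k + 1 ≤ 2 ^ k := Nat.lt_two_pow_self
    exact_mod_cast this
  have h4 : (n : ℝ) + 1 ≤ 2 * ((k : ℝ) + 1) := by
    have : (n : ℝ) ≤ 2 * k := by exact_mod_cast hk2
    linarith
  calc ((n : ℝ) + 1) * ((r : ℝ)⁻¹) ^ k ≤ (2 * 2 ^ k) * (2⁻¹ : ℝ) ^ k := by
        gcongr
        linarith
    _ = 2 := by
        rw [mul_assoc, ← mul_pow]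
        norm_num

theorem key (hwin : S_WIN) : S_KEY := by
  intro r hr h hh
  have hr0 : (2 : ℝ) ≤ r := by exact_mod_cast hr
  have hrp : (0 : ℝ) < r := by linarith
  obtain ⟨l, hl⟩ : ∃ l : ℕ, 8 * h ≤ r ^ l :=
    ⟨8 * h, (Nat.lt_pow_self (by omega : 1 < r)).le⟩
  obtain ⟨K1, hK1, hK1'⟩ := pow_exp_bdd 8 (c := 1) one_pos
  obtain ⟨K2, hK2, hK2'⟩ := pow_exp_bdd 4 (c := 1 / (4 * (r : ℝ) ^ 2)) (by positivity)
  obtain ⟨C0, hC0⟩ : ∃ C0 : ℝ, C0 = ((l : ℝ) + 5) ^ 2 + K1 * Real.exp (2 + l) + K2 * Real.exp 1 +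
      4 * Real.pi * h := ⟨_, rfl⟩
  have hpi := Real.pi_pos
  refine ⟨C0, by rw [hC0]; positivity, ?_⟩
  intro m n M hmn hnM
  have hn1 : (0 : ℝ) < (n : ℝ) + 1 := by positivity
  rw [le_div_iff₀ hn1]
  by_cases hL : l + 5 ≤ Nat.sqrt n
  swap
  · have h1 := norm_le_one d0_adm.le_one (range M)
      (fun A => (h : ℝ) * ((r : ℝ) ^ n - (r : ℝ) ^ m) * (1 + Z r A)⁻¹)
    have h2 : n + 1 ≤ (l + 5) ^ 2 := by
      have h3 : Nat.sqrt n + 1 ≤ l + 5 := by omega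
      have h4 : n < (Nat.sqrt n + 1) ^ 2 := by
        have := Nat.lt_succ_sqrt n
        rw [pow_two]
        exact this
      have h5 : (Nat.sqrt n + 1) ^ 2 ≤ (l + 5) ^ 2 := Nat.pow_le_pow_left h3 2
      omega
    have h3 : (n : ℝ) + 1 ≤ ((l : ℝ) + 5) ^ 2 := by exact_mod_cast h2
    have h4 : 0 ≤ K1 * Real.exp (2 + l) + K2 * Real.exp 1 + 4 * Real.pi * h := by positivity
    calc _ ≤ 1 * ((n : ℝ) + 1) := mul_le_mul_of_nonneg_right h1 hn1.le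
      _ ≤ C0 := by rw [hC0]; linarith
  · obtain ⟨L, hLdef⟩ : ∃ L, L = Nat.sqrt n := ⟨_, rfl⟩
    obtain ⟨q, hqdef⟩ : ∃ q, q = Nat.sqrt L := ⟨_, rfl⟩
    rw [← hLdef] at hL
    obtain ⟨B, hB⟩ : ∃ B, B = (n / 4) / L := ⟨_, rfl⟩
    have hLpos : 0 < L := by omega
    have hBL : B * L ≤ n / 4 := by rw [hB]; exact Nat.div_mul_le_self _ _
    have hd0 : d0 n = 1 / ((q : ℝ) + 2) := by
      unfold d0
      rw [← hLdef, ← hqdef]
    -- sizes
    have e1 : L * L ≤ n := by rw [hLdef]; exact Nat.sqrt_le n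
    have e2 : n < (L + 1) * (L + 1) := by rw [hLdef]; exact Nat.lt_succ_sqrt n
    have e3 : q * q ≤ L := by rw [hqdef]; exact Nat.sqrt_le L
    have e4 : L < (q + 1) * (q + 1) := by rw [hqdef]; exact Nat.lt_succ_sqrt L
    have e5 : n + 1 ≤ (q + 1) ^ 4 := by
      have h1 : (L + 1) * (L + 1) ≤ ((q + 1) * (q + 1)) * ((q + 1) * (q + 1)) :=
        Nat.mul_le_mul e4 e4
      calc n + 1 ≤ (L + 1) * (L + 1) := e2
        _ ≤ ((q + 1) * (q + 1)) * ((q + 1) * (q + 1)) := h1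
        _ = (q + 1) ^ 4 := by ring
    have e5' : (n : ℝ) + 1 ≤ ((q : ℝ) + 1) ^ 4 := by exact_mod_cast e5
    have e3' : (q : ℝ) * q ≤ L := by exact_mod_cast e3
    have e6 : (B : ℝ) ≤ n := by
      have : B ≤ n := by
        have h1 : B * 1 ≤ B * L := Nat.mul_le_mul_left B hLpos
        omega
      exact_mod_cast this
    have hBn : n / 4 < (B + 1) * L := by
      rw [hB, ← Nat.div_lt_iff_lt_mul hLpos]
      exact Nat.lt_succ_self _
    have e7 : (L : ℝ) / 4 - 2 ≤ B := by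
      have h1 : n < 4 * ((B + 1) * L) := by omega
      have h2 : L * L < 4 * ((B + 1) * L) := lt_of_le_of_lt e1 h1
      have h3 : L < 4 * (B + 1) := by
        have h4 : L * L < (4 * (B + 1)) * L := by rw [mul_assoc]; exact h2
        exact Nat.lt_of_mul_lt_mul_right h4
      have h4 : (L : ℝ) < 4 * ((B : ℝ) + 1) := by exact_mod_cast h3
      linarith
    have hw := hwin r hr d0 d0_adm d0_anti h m n (n - n / 4) L l B M hh hmn hl hL
      (Nat.sub_le _ _) (by omega) (by omega) hnM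
    -- the first exponent
    have hq2 : (0 : ℝ) < (q : ℝ) + 2 := by positivity
    have x1 : (q : ℝ) - 2 - l ≤ ((L : ℝ) - 4 - l) * d0 n := by
      rw [hd0, mul_one_div, le_div_iff₀ hq2]
      have h1 : (0 : ℝ) ≤ l := Nat.cast_nonneg _
      have h2 : (0 : ℝ) ≤ q := Nat.cast_nonneg _
      nlinarith [mul_nonneg h1 h2]
    have x2 : 1 / (4 * (r : ℝ) ^ 2) * q - 1 ≤ B * d0 n / (r : ℝ) ^ 2 := by
      have h1 : ((q : ℝ) - 4) / 4 ≤ B * d0 n := by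
        rw [hd0, mul_one_div, le_div_iff₀ hq2]
        have h2 : (0 : ℝ) ≤ q := Nat.cast_nonneg _
        nlinarith
      have h3 : ((q : ℝ) - 4) / 4 / (r : ℝ) ^ 2 ≤ B * d0 n / (r : ℝ) ^ 2 :=
        div_le_div_of_nonneg_right h1 (by positivity)
      have h4 : ((q : ℝ) - 4) / 4 / (r : ℝ) ^ 2 = 1 / (4 * (r : ℝ) ^ 2) * q - 1 / (r : ℝ) ^ 2 := by
        field_simp
      have h5 : 1 / (r : ℝ) ^ 2 ≤ 1 := by
        rw [div_le_one (by positivity)]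
        nlinarith
      linarith
    have y1 : ((n : ℝ) + 1) * (B * Real.exp (-(((L : ℝ) - 4 - l) * d0 n))) ≤
        K1 * Real.exp (2 + l) := by
      have h1 : Real.exp (-(((L : ℝ) - 4 - l) * d0 n)) ≤ Real.exp (-(1 * (q : ℝ))) *
          Real.exp (2 + l) := by
        rw [← Real.exp_add]
        apply Real.exp_le_exp.2
        linarith
      have h2 : (B : ℝ) ≤ ((q : ℝ) + 1) ^ 4 := by linarith
      calc ((n : ℝ) + 1) * (B * Real.exp (-(((L : ℝ) - 4 - l) * d0 n)))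
          ≤ ((q : ℝ) + 1) ^ 4 * (((q : ℝ) + 1) ^ 4 * (Real.exp (-(1 * (q : ℝ))) *
            Real.exp (2 + l))) := by gcongr
        _ = (((q : ℝ) + 1) ^ 8 * Real.exp (-(1 * (q : ℝ)))) * Real.exp (2 + l) := by ring
        _ ≤ K1 * Real.exp (2 + l) := by
            gcongr
            exact hK1' q
    have y2 : ((n : ℝ) + 1) * Real.exp (-(B * d0 n / (r : ℝ) ^ 2)) ≤ K2 * Real.exp 1 := by
      have h1 : Real.exp (-(B * d0 n / (r : ℝ) ^ 2)) ≤
          Real.exp (-(1 / (4 * (r : ℝ) ^ 2) * (q : ℝ))) * Real.exp 1 := by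
        rw [← Real.exp_add]
        apply Real.exp_le_exp.2
        linarith
      calc ((n : ℝ) + 1) * Real.exp (-(B * d0 n / (r : ℝ) ^ 2))
          ≤ ((q : ℝ) + 1) ^ 4 * (Real.exp (-(1 / (4 * (r : ℝ) ^ 2) * (q : ℝ))) *
            Real.exp 1) := by gcongr
        _ = (((q : ℝ) + 1) ^ 4 * Real.exp (-(1 / (4 * (r : ℝ) ^ 2) * (q : ℝ)))) *
            Real.exp 1 := by ring
        _ ≤ K2 * Real.exp 1 := by
            gcongr
            exact hK2' q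
    have y3 : ((n : ℝ) + 1) * (2 * Real.pi * h * (r : ℝ) ^ n *
        ((r : ℝ)⁻¹) ^ (2 * (n - n / 4))) ≤ 4 * Real.pi * h := by
      have h1 := third r n hr
      calc ((n : ℝ) + 1) * (2 * Real.pi * h * (r : ℝ) ^ n * ((r : ℝ)⁻¹) ^ (2 * (n - n / 4)))
          = 2 * Real.pi * h * (((n : ℝ) + 1) * ((r : ℝ) ^ n *
            ((r : ℝ)⁻¹) ^ (2 * (n - n / 4)))) := by ring
        _ ≤ 2 * Real.pi * h * 2 := by gcongr
        _ = 4 * Real.pi * h := by ring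
    have h4 : (0 : ℝ) ≤ ((l : ℝ) + 5) ^ 2 := by positivity
    calc _ ≤ (B * Real.exp (-(((L : ℝ) - 4 - l) * d0 n)) + Real.exp (-(B * d0 n / (r : ℝ) ^ 2)) +
          2 * Real.pi * h * (r : ℝ) ^ n * ((r : ℝ)⁻¹) ^ (2 * (n - n / 4))) * ((n : ℝ) + 1) :=
          mul_le_mul_of_nonneg_right hw hn1.le
      _ ≤ C0 := by rw [hC0]; linarith

end Pool.Agent.W12.DN.Key
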