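import Pool.Agent.W809.DN.Stms

/-! Project DN (helper809), task DN-SEC (helper12): second moment of exponential sums. -/

set_option autoImplicit false

open Finset Filter Topology

namespace Pool.Agent.W12.DN.Sec

open Pool.Agent.W809.DN

lemma norm_sum_sq (a : ℕ → ℂ) (ha : ∀ n, ‖a n‖ = 1) (N : ℕ) :
    ‖∑ n ∈ range N, a n‖ ^ 2 =
      N + 2 * ∑ n ∈ range N, ∑ m ∈ range n, (a n * (starRingEnd ℂ) (a m)).re := by
  induction N with
  | zero => simp
  | succ N ih =>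
    have h1 : ‖∑ n ∈ range (N + 1), a n‖ ^ 2 = ‖a N‖ ^ 2 + ‖∑ n ∈ range N, a n‖ ^ 2 +
        2 * (a N * (starRingEnd ℂ) (∑ n ∈ range N, a n)).re := by
      rw [Finset.sum_range_succ, add_comm, ← Complex.normSq_eq_norm_sq, Complex.normSq_add,
        Complex.normSq_eq_norm_sq, Complex.normSq_eq_norm_sq]
    have h2 : (a N * (starRingEnd ℂ) (∑ n ∈ range N, a n)).re =
        ∑ m ∈ range N, (a N * (starRingEnd ℂ) (a m)).re := by
      rw [map_sum, Finset.mul_sum, Complex.re_sum]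
    rw [h1, ih, ha, h2,
      Finset.sum_range_succ (fun n => ∑ m ∈ range n, (a n * (starRingEnd ℂ) (a m)).re)]
    push_cast
    ring

lemma EE_re (δ : ℕ → ℝ) (S : Finset ℕ) (f : Finset ℕ → ℂ) :
    EE δ S (fun A => (f A).re) = (EE δ S f).re := by
  unfold EE
  rw [Complex.re_sum]
  refine Finset.sum_congr rfl fun A _ => ?_
  rw [Complex.real_smul, Complex.re_ofReal_mul, smul_eq_mul]

theorem sec : S_SEC := by
  intro δ hδ S x r h N hN
  have hN0 : (0 : ℝ) < N := by exact_mod_cast hN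
  have key : ∀ A : Finset ℕ, ‖SS r h N (x A)‖ ^ 2 = 1 / (N : ℝ) + (2 / (N : ℝ) ^ 2) •
      ∑ n ∈ range N, ∑ m ∈ range n, (ee ((h : ℝ) * ((r : ℝ) ^ n - (r : ℝ) ^ m) * x A)).re := by
    intro A
    unfold SS
    rw [norm_mul, mul_pow, norm_sum_sq _ (fun n => norm_ee _)]
    have h1 : ‖(1 / (N : ℂ))‖ = 1 / (N : ℝ) := by
      rw [norm_div, norm_one, Complex.norm_natCast]
    rw [h1, smul_eq_mul]
    have h2 : ∀ n m : ℕ, ee ((h : ℝ) * (r : ℝ) ^ n * x A) *
        (starRingEnd ℂ) (ee ((h : ℝ) * (r : ℝ) ^ m * x A)) =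
        ee ((h : ℝ) * ((r : ℝ) ^ n - (r : ℝ) ^ m) * x A) := by
      intro n m
      rw [← ee_neg, ← ee_add]
      congr 1
      ring
    simp only [h2]
    generalize ∑ n ∈ range N, ∑ m ∈ range n,
      (ee ((h : ℝ) * ((r : ℝ) ^ n - (r : ℝ) ^ m) * x A)).re = Q
    field_simp
  simp only [key]
  rw [EE_add, EE_const, EE_smul, EE_sum, smul_eq_mul]
  refine add_le_add le_rfl (mul_le_mul_of_nonneg_left ?_ (by positivity))
  refine Finset.sum_le_sum fun n _ => ?_
  rw [EE_sum]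
  refine Finset.sum_le_sum fun m _ => ?_
  rw [EE_re]
  exact Complex.re_le_norm _

end Pool.Agent.W12.DN.Sec
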